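import Pool.Agent.W998.KG.Stm

/-!
# Project KG, part KIE: Kierstead's theorem
-/

set_option autoImplicit false

namespace Pool.Agent.W880.KG

open Pool.Agent.W998.KG
open Pool.Agent.Results.MP_633d19_co.SmallDegree
open Pool.Agent.Results.MP_633d19_co.SmallDegree.MGraph

lemma trunc {V E : Type} {G : MGraph V E} {k r r' : ℕ} {y : ℕ → V} {f : ℕ → E}
    {c : E → Option (Fin k)} (h : KP G r y f c) (hr : r' ≤ r) : KP G r' y f c where
  pp := h.pp
  inj := fun i hi j hj => h.inj i (hi.trans hr) j (hj.trans hr)
  ed := fun i hi => h.ed i (by omega)
  none_iff := h.none_iff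
  col := fun i hi => h.col i (by omega)

/-- colouring an edge both ends of which miss the colour -/
lemma pp_update {V E : Type} [DecidableEq E] {G : MGraph V E} {k : ℕ} {c : E → Option (Fin k)}
    (hc : G.PP c) (e0 : E) (u w : V) (he : G.ends e0 = s(u, w)) (a : Fin k)
    (hu : G.Miss c u a) (hw : G.Miss c w a) : G.PP (Function.update c e0 (some a)) := by
  have key : ∀ f v, v ∈ G.ends e0 → v ∈ G.ends f → f ≠ e0 → c f ≠ some a := by
    intro f v hv hvf _
    rw [he, Sym2.mem_iff] at hv
    rcases hv with rfl | rfl
    · exact hu f hvf
    · exact hw f hvf
  intro e f v x hev hfv h1 h2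
  by_cases h3 : e = e0
  · by_cases h4 : f = e0
    · rw [h3, h4]
    · exfalso
      rw [h3, Function.update_self] at h1
      rw [Function.update_of_ne h4, ← h1] at h2
      rw [h3] at hev
      exact key f v hev hfv h4 h2
  · by_cases h4 : f = e0
    · exfalso
      rw [h4, Function.update_self] at h2
      rw [Function.update_of_ne h3, ← h2] at h1
      rw [h4] at hfv
      exact key e v hfv hev h3 h1
    · rw [Function.update_of_ne h3] at h1
      rw [Function.update_of_ne h4] at h2
      exact hc e f v x hev hfv h1 h2

theorem main : PartKIE := by
  classical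
  intro V E _ _ G k Δ hG hdeg hk r
  induction r using Nat.strong_induction_on with
  | _ r IH =>
  have inner : ∀ d, 1 ≤ d → ∀ (y : ℕ → V) (f : ℕ → E) (c : E → Option (Fin k)), KP G r y f c →
      ∀ i, i + d = r → ∀ a, G.Miss c (y i) a → G.Miss c (y r) a → False := by
    intro d hd
    induction d, hd using Nat.le_induction with
    | base =>
      intro y f c h i hir a hi ha
      rcases Nat.eq_zero_or_pos i with hi0 | hi0
      · -- the uncoloured edge can be coloured
        subst hi0
        have hr : r = 1 := by omega
        subst hr
        have he := h.ed 0 (by omega)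
        refine hG (G.colorable_of_total (Function.update c (f 0) (some a))
          (pp_update h.pp (f 0) (y 0) (y (0 + 1)) he a hi ha) ?_)
        intro e
        by_cases h1 : e = f 0
        · rw [h1, Function.update_self]
          simp
        · rw [Function.update_of_ne h1, Ne, h.none_iff]
          exact h1
      · -- shift
        have he := h.ed i (by omega)
        obtain ⟨b, hb, j, hj, hjb⟩ := h.col i (by omega) hi0
        have hir' : i + 1 = r := hir
        have hpp := pp_update h.pp (f i) (y i) (y (i + 1)) he a hi (by rw [hir']; exact ha)
        have hoff : ∀ j < i, y j ∉ G.ends (f i) := by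
          intro j hj hmem
          rw [he, Sym2.mem_iff] at hmem
          rcases hmem with h1 | h1
          · have := h.inj j (by omega) i (by omega) h1
            omega
          · have := h.inj j (by omega) (i + 1) (by omega) h1
            omega
        have hmiss : ∀ j < i, ∀ x, G.Miss c (y j) x →
            G.Miss (Function.update c (f i) (some a)) (y j) x := by
          intro j hj x hx e he'
          have h1 : e ≠ f i := by
            rintro rfl
            exact hoff j hj he'
          rw [Function.update_of_ne h1]
          exact hx e he'
        have hfne : ∀ t < i, f t ≠ f i := by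
          intro t ht h1
          apply hoff t ht
          rw [← h1, h.ed t (by omega)]
          simp
        have hKP : KP G i y f (Function.update c (f i) (some a)) := by
          refine ⟨hpp, fun s hs t ht => h.inj s (by omega) t (by omega),
            fun t ht => h.ed t (by omega), ?_, ?_⟩
          · intro e
            by_cases h1 : e = f i
            · rw [h1, Function.update_self]
              constructor
              · intro h2
                simp at h2
              · intro h2
                exact absurd h2.symm (hfne 0 hi0)
            · rw [Function.update_of_ne h1]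
              exact h.none_iff e
          · intro t ht ht1
            obtain ⟨x, hx, s, hs, hsx⟩ := h.col t (by omega) ht1
            refine ⟨x, ?_, s, hs, hmiss s (by omega) x hsx⟩
            rw [Function.update_of_ne (hfne t ht)]
            exact hx
        refine IH i (by omega) hKP (by omega) j i hj le_rfl b (hmiss j hj b hjb) ?_
        intro e he' h1
        have hyi : y i ∈ G.ends (f i) := by
          rw [he]
          simp
        by_cases h2 : e = f i
        · rw [h2, Function.update_self] at h1
          have hab : a = b := Option.some.inj h1
          exact hi (f i) hyi (by rw [hb, hab])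
        · rw [Function.update_of_ne h2] at h1
          exact h2 (h.pp e (f i) (y i) b he' hyi h1 hb)
    | succ d hd ihd =>
      intro y f c h i hir a hi ha
      obtain ⟨b, hb⟩ := G.exists_miss c (y (i + 1)) (hdeg _) hk
      -- two different vertices before the last one have no common missing colour
      have hout : ∀ s t, s < t → t < r → ∀ x, G.Miss c (y s) x → G.Miss c (y t) x → False :=
        fun s t hst ht x => IH t ht (trunc h (by omega)) (by omega) s t hst le_rfl x
      have hab : b ≠ a := by
        rintro rfl
        exact hout i (i + 1) (by omega) (by omega) b hi hb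
      -- the colours of the first edges
      have hfirst : ∀ t, 1 ≤ t → t ≤ i → ∀ x, c (f t) = some x → ∀ s < t, G.Miss c (y s) x →
          x ≠ a ∧ x ≠ b := by
        intro t ht1 hti x hx s hs hsx
        constructor
        · rintro rfl
          exact hout s i (by omega) (by omega) x hsx hi
        · rintro rfl
          exact hout s (i + 1) (by omega) (by omega) x hsx hb
      -- (1)
      have h1 : ∃ n : ℤ, y i = ((G.iv h.pp b * G.iv h.pp a) ^ n) (y (i + 1)) := by
        by_contra hcon
        obtain ⟨c'', g1, g2, g3, g4, g5⟩ := G.swap_comp h.pp b a (y (i + 1)) hb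
        have hKP : KP G (i + 1) y f c'' := by
          refine ⟨g1, fun s hs t ht => h.inj s (by omega) t (by omega),
            fun t ht => h.ed t (by omega), fun e => (g2 e).trans (h.none_iff e), ?_⟩
          intro t ht ht1
          obtain ⟨x, hx, s, hs, hsx⟩ := h.col t (by omega) ht1
          obtain ⟨k1, k2⟩ := hfirst t ht1 (by omega) x hx s hs hsx
          refine ⟨x, (g3 _ x k2 k1).mpr hx, s, hs, ?_⟩
          intro e he h2
          exact hsx e he ((g3 _ x k2 k1).mp h2)
        exact IH (i + 1) (by omega) hKP (by omega) i (i + 1) (by omega) le_rfl a
          (g5 (y i) hcon a hi) g4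
      obtain ⟨m, hm⟩ := h1
      have hinv : G.iv h.pp b * G.iv h.pp a = (G.iv h.pp a * G.iv h.pp b)⁻¹ := by
        rw [mul_inv_rev, inv_eq_of_mul_eq_one_left (G.iv_sq h.pp a),
          inv_eq_of_mul_eq_one_left (G.iv_sq h.pp b)]
      have hm' : y (i + 1) = ((G.iv h.pp a * G.iv h.pp b) ^ m) (y i) := by
        rw [hm, hinv, inv_zpow, ← Equiv.Perm.mul_apply, mul_inv_cancel, Equiv.Perm.one_apply]
      have hne1 : y r ≠ y i := fun h2 => by
        have := h.inj r le_rfl i (by omega) h2
        omega
      have hne2 : y r ≠ y (i + 1) := fun h2 => by
        have := h.inj r le_rfl (i + 1) (by omega) h2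
        omega
      have hne3 : y i ≠ y (i + 1) := fun h2 => by
        have := h.inj i (by omega) (i + 1) (by omega) h2
        omega
      -- (2)
      have hthree : ∀ n n' : ℤ, y i = ((G.iv h.pp a * G.iv h.pp b) ^ n) (y r) →
          y (i + 1) = ((G.iv h.pp a * G.iv h.pp b) ^ n') (y r) → False := by
        intro n n' hn hn'
        have := three_fixed _ _ (G.iv_sq h.pp a) (G.iv_sq h.pp b) (y r) (y i) (y (i + 1))
          (by rw [iv_apply]; exact G.nb_miss ha) n n' hn hn'
          (Or.inl (by rw [iv_apply]; exact G.nb_miss hi))
          (Or.inr (by rw [iv_apply]; exact G.nb_miss hb))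
        rcases this with h2 | h2 | h2
        · exact hne1 h2
        · exact hne2 h2
        · exact hne3 h2
      have hni : ¬ ∃ n : ℤ, y i = ((G.iv h.pp a * G.iv h.pp b) ^ n) (y r) := by
        rintro ⟨n, hn⟩
        refine hthree n (m + n) hn ?_
        rw [zpow_add, Equiv.Perm.mul_apply, ← hn]
        exact hm'
      have hni' : ¬ ∃ n : ℤ, y (i + 1) = ((G.iv h.pp a * G.iv h.pp b) ^ n) (y r) := by
        rintro ⟨n, hn⟩
        refine hthree (-m + n) n ?_ hn
        rw [zpow_add, Equiv.Perm.mul_apply, ← hn, hm', ← Equiv.Perm.mul_apply, ← zpow_add,
          neg_add_cancel, zpow_zero, Equiv.Perm.one_apply]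
      obtain ⟨c', g1, g2, g3, g4, g5⟩ := G.swap_comp h.pp a b (y r) ha
      have ma : G.Miss c' (y i) a := g5 _ hni a hi
      have mb : G.Miss c' (y (i + 1)) b := g5 _ hni' b hb
      have hKP : KP G r y f c' := by
        refine ⟨g1, h.inj, h.ed, fun e => (g2 e).trans (h.none_iff e), ?_⟩
        intro t ht ht1
        obtain ⟨x, hx, s, hs, hsx⟩ := h.col t ht ht1
        by_cases hxab : x ≠ a ∧ x ≠ b
        · obtain ⟨k1, k2⟩ := hxab
          refine ⟨x, (g3 _ x k1 k2).mpr hx, s, hs, ?_⟩
          intro e he h2
          exact hsx e he ((g3 _ x k1 k2).mp h2)
        · have hti : i < t := by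
            by_contra hti
            exact hxab (hfirst t ht1 (by omega) x hx s hs hsx)
          have hnn : c' (f t) ≠ none := by
            rw [Ne, g2, hx]
            simp
          obtain ⟨z, hz⟩ := Option.ne_none_iff_exists'.mp hnn
          have hzab : z = a ∨ z = b := by
            by_contra hcon
            push Not at hcon
            have h2 := (g3 _ z hcon.1 hcon.2).mp hz
            rw [hx] at h2
            have h3 : x = z := Option.some.inj h2
            exact hxab (by rw [h3]; exact hcon)
          rcases hzab with rfl | rfl
          · exact ⟨z, hz, i, hti, ma⟩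
          · refine ⟨z, hz, i + 1, ?_, mb⟩
            by_contra hti'
            have hti'' : t = i + 1 := by omega
            subst hti''
            refine mb (f (i + 1)) ?_ hz
            rw [h.ed (i + 1) ht]
            simp
      exact ihd y f c' hKP (i + 1) (by omega) b mb g4
  intro y f c h hr i j hij hjr a hi hj
  rcases Nat.lt_or_ge j r with h1 | h1
  · exact IH j h1 (trunc h hjr) (by omega) i j hij le_rfl a hi hj
  · have : j = r := by omega
    subst this
    exact inner (j - i) (by omega) y f c h i (by omega) a hi hj

end Pool.Agent.W880.KG
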